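import Pool.Agent.H136.Subtrees

set_option autoImplicit false

namespace Pool.Agent.Results.MP_e83d06_co.ContractionIncreases

open SimpleGraph Pool.Agent.H136.Subtrees

/-- Contraction of the edge `uv`: the vertex `v` is removed and its neighbours become neighbours
of `u`; loops and repeated edges disappear. -/
def contractEdge {V : Type*} (G : SimpleGraph V) (u v : V) : SimpleGraph {x : V // x ≠ v} where
  Adj x y := x ≠ y ∧ (G.Adj x.1 y.1 ∨ (x.1 = u ∧ G.Adj v y.1) ∨ (y.1 = u ∧ G.Adj v x.1))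
  symm := ⟨fun _ _ h => ⟨h.1.symm, h.2.elim (fun h => Or.inl h.symm)
    (fun h => h.elim (fun h => Or.inr (Or.inr h)) (fun h => Or.inr (Or.inl h)))⟩⟩
  loopless := ⟨fun _ h => h.1 rfl⟩

/-- Positions of the 16 + 16 pendant vertices. -/
def f0 : Fin 16 ⊕ Fin 16 → ZMod 200
  | Sum.inl _ => 0
  | Sum.inr _ => 52

/-- The additional pendant vertex is attached at `26`. -/
def f1 : Option (Fin 16 ⊕ Fin 16) → ZMod 200
  | none => 26
  | some l => f0 l

def contractIso : contractEdge (starred f1) (Sum.inl 26) (Sum.inr none) ≃g starred f0 where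
  toFun x := match x with
    | ⟨Sum.inl a, _⟩ => Sum.inl a
    | ⟨Sum.inr (some l), _⟩ => Sum.inr l
    | ⟨Sum.inr none, h⟩ => (h rfl).elim
  invFun x := match x with
    | Sum.inl a => ⟨Sum.inl a, by simp⟩
    | Sum.inr l => ⟨Sum.inr (some l), by simp⟩
  left_inv := by
    rintro ⟨a | (_ | l), h⟩
    · rfl
    · exact (h rfl).elim
    · rfl
  right_inv := by
    rintro (a | l) <;> rfl
  map_rel_iff' := by
    rintro ⟨a | (_ | l), h⟩ ⟨b | (_ | m), h'⟩
    · simp only [Equiv.coe_fn_mk, contractEdge, starred, ne_eq, Subtype.mk.injEq, Sum.inl.injEq,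
        f1]
      constructor
      · rintro ⟨h1, h2⟩; exact ⟨h1, Or.inl ⟨h1, h2⟩⟩
      · rintro ⟨h1, h2 | ⟨h2, h3⟩ | ⟨h2, h3⟩⟩
        · exact h2
        · exact (h1 (h2.trans h3)).elim
        · exact (h1 (h3.symm.trans h2.symm)).elim
    · exact (h' rfl).elim
    · simp [contractEdge, starred, f1]
    · exact (h rfl).elim
    · exact (h rfl).elim
    · exact (h rfl).elim
    · simp [contractEdge, starred, f1]
    · exact (h' rfl).elim
    · simp [contractEdge, starred]

lemma starred_connected {c : ℕ} [NeZero c] (hc : 3 ≤ c) {L : Type} [Fintype L] [DecidableEq L]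
    (f : L → ZMod c) : (starred f).Connected := by
  have hA : ∀ l ∈ (Finset.univ : Finset L), (f l - 0).val ≤ c - 1 := fun l _ => by
    have := ZMod.val_lt (f l - 0); omega
  obtain ⟨hg, hn⟩ := grow_arcTree f (by omega) 0 (c - 1) (by omega) Finset.univ hA
  have hT := (grow_spec hg).1
  have hv : ∀ x, x ∈ (arcTree f 0 (c - 1) ((Finset.univ : Finset L) : Set L)).verts := by
    rintro (a | l)
    · show (a - 0).val ≤ c - 1
      have := ZMod.val_lt (a - 0); omega
    · exact ⟨by simp, hA l (Finset.mem_univ l)⟩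
  have : Nonempty (ZMod c ⊕ L) := ⟨Sum.inl 0⟩
  refine ⟨fun a b => ?_⟩
  exact (hT.preconnected ⟨a, hv a⟩ ⟨b, hv b⟩).map (Subgraph.hom _)

/-- Number of old pendant vertices on an arc. -/
def w0 (i k : ℕ) : ℕ :=
  (if (0 + 200 - i) % 200 ≤ k then 16 else 0) + (if (52 + 200 - i) % 200 ≤ k then 16 else 0)

def w1 (i k : ℕ) : ℕ := (if (26 + 200 - i) % 200 ≤ k then 1 else 0) + w0 i k

lemma sub_val (x i : ℕ) (hx : x < 200) (hi : i < 200) :
    ((x : ZMod 200) - (i : ZMod 200)).val = (x + 200 - i) % 200 := by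
  have : ((x : ZMod 200) - (i : ZMod 200)) = ((x + 200 - i : ℕ) : ZMod 200) := by
    rw [Nat.cast_sub (by omega)]
    push_cast
    have : (200 : ZMod 200) = 0 := by decide
    rw [this, add_zero]
  rw [this, ZMod.val_natCast]

lemma att0_card (i k : ℕ) (hi : i < 200) : (att f0 (i : ZMod 200) k).card = w0 i k := by
  unfold att w0
  rw [Finset.card_filter, Fintype.sum_sum_type]
  have h0 : ∀ a, (f0 (Sum.inl a) - (i : ZMod 200)).val = (0 + 200 - i) % 200 := fun a => by
    rw [← sub_val 0 i (by norm_num) hi]; simp [f0]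
  have h1 : ∀ a, (f0 (Sum.inr a) - (i : ZMod 200)).val = (52 + 200 - i) % 200 := fun a => by
    rw [← sub_val 52 i (by norm_num) hi]; simp [f0]
  simp only [h0, h1, Finset.sum_const, Finset.card_univ, Fintype.card_fin, smul_eq_mul, mul_ite,
    mul_one, mul_zero]

lemma att1_card (i k : ℕ) (hi : i < 200) : (att f1 (i : ZMod 200) k).card = w1 i k := by
  unfold w1
  rw [← att0_card i k hi]
  unfold att
  rw [Finset.card_filter, Finset.card_filter, Fintype.sum_option]
  have h0 : (f1 none - (i : ZMod 200)).val = (26 + 200 - i) % 200 := by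
    rw [← sub_val 26 i (by norm_num) hi]; simp [f1]
  simp only [h0]
  rfl

/-- Plain recursive summation, for evaluation. -/
def sumTo : ℕ → (ℕ → ℕ) → ℕ
  | 0, _ => 0
  | n + 1, g => sumTo n g + g n

lemma sumTo_eq (n : ℕ) (g : ℕ → ℕ) : sumTo n g = ∑ i ∈ Finset.range n, g i := by
  induction n with
  | zero => rfl
  | succ n ih => rw [Finset.sum_range_succ, ← ih]; rfl

def N (n : ℕ) (w : ℕ → ℕ → ℕ) : ℕ := sumTo n fun i => sumTo n fun k => 2 ^ w i k

def S (n : ℕ) (w : ℕ → ℕ → ℕ) : ℕ :=
  sumTo n fun i => sumTo n fun k => 2 ^ w i k * (2 * (k + 1) + w i k)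

lemma sum_zmod (n : ℕ) [NeZero n] (g : ZMod n → ℕ) :
    ∑ i : ZMod n, g i = ∑ i ∈ Finset.range n, g (i : ZMod n) := by
  symm
  apply Finset.sum_bij (fun (i : ℕ) _ => (i : ZMod n))
  · intro i _; exact Finset.mem_univ _
  · intro i hi j hj h
    rw [Finset.mem_range] at hi hj
    have := congrArg ZMod.val h
    rwa [ZMod.val_natCast, ZMod.val_natCast, Nat.mod_eq_of_lt hi, Nat.mod_eq_of_lt hj] at this
  · intro x _
    exact ⟨x.val, Finset.mem_range.mpr (ZMod.val_lt x), ZMod.natCast_zmod_val x⟩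
  · intro i _; rfl

lemma eval (n : ℕ) [NeZero n] (hn : 3 ≤ n) {L : Type} [Fintype L] [DecidableEq L] (f : L → ZMod n)
    (w : ℕ → ℕ → ℕ) (h : ∀ i k : ℕ, i < n → (att f (i : ZMod n) k).card = w i k) :
    meanSubtreeOrder (starred f) =
      ((S n w + 2 * Fintype.card L : ℕ) : ℚ) / ((2 * (N n w + Fintype.card L) : ℕ) : ℚ) := by
  rw [mean_starred f hn]
  have h1 : (idx f).card = N n w + Fintype.card L := by
    rw [card_idx, sum_zmod]
    simp only [N, sumTo_eq]
    congr 1
    refine Finset.sum_congr rfl fun i hi => Finset.sum_congr rfl fun k _ => ?_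
    rw [h i k (Finset.mem_range.mp hi)]
  have h2 : 2 * ∑ d ∈ idx f, ordr d = S n w + 2 * Fintype.card L := by
    rw [sum_idx, sum_zmod]
    simp only [S, sumTo_eq]
    congr 1
    refine Finset.sum_congr rfl fun i hi => Finset.sum_congr rfl fun k _ => ?_
    rw [h i k (Finset.mem_range.mp hi)]
  rw [h1, ← h2]
  push_cast
  rw [mul_div_mul_left _ _ (by norm_num)]

lemma numeric : (S 200 w1 + 2 * 33) * (2 * (N 200 w0 + 32)) <
    (S 200 w0 + 2 * 32) * (2 * (N 200 w1 + 33)) := by
  decide +kernel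

lemma lt_contract : meanSubtreeOrder (starred f1) <
    meanSubtreeOrder (contractEdge (starred f1) (Sum.inl 26) (Sum.inr none)) := by
  rw [meanSubtreeOrder_iso contractIso, eval 200 (by norm_num) f1 w1 att1_card,
    eval 200 (by norm_num) f0 w0 att0_card]
  have c0 : Fintype.card (Fin 16 ⊕ Fin 16) = 32 := by simp
  have c1 : Fintype.card (Option (Fin 16 ⊕ Fin 16)) = 33 := by simp
  rw [c0, c1, div_lt_div_iff₀]
  · exact_mod_cast numeric
  · have : 0 < 2 * (N 200 w1 + 33) := by omega
    exact_mod_cast this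
  · have : 0 < 2 * (N 200 w0 + 32) := by omega
    exact_mod_cast this

/-- There are a finite connected graph `G` and an edge `uv` of `G` (even a pendant edge) such that
`μ(G) < μ(G/uv)`; so `μ(G) - μ(G/uv)` is negative, in particular below `1/3`. -/
theorem result : ∃ (V : Type) (_ : Finite V) (G : SimpleGraph V) (u v : V),
    G.Connected ∧ G.Adj u v ∧ (∀ w, G.Adj v w → w = u) ∧
      meanSubtreeOrder G < meanSubtreeOrder (contractEdge G u v) := by
  refine ⟨ZMod 200 ⊕ Option (Fin 16 ⊕ Fin 16), inferInstance, starred f1, Sum.inl 26,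
    Sum.inr none, starred_connected (by norm_num) f1, rfl, ?_, lt_contract⟩
  rintro (a | l) h
  · have h' : f1 none = a := h
    rw [← h']; rfl
  · exact h.elim

end Pool.Agent.Results.MP_e83d06_co.ContractionIncreases
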